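import Pool.Agent.Helper57.ML.G2a

/-!
# Project ML, block G2: Brun-Titchmarsh for the counting problem
-/

set_option autoImplicit false

namespace Pool.Agent.ML

open Polynomial NumberField IsDedekindDomain
open Pool.Agent.HG
open Pool.Agent.Helper99.HG (CD pf Nm)
open Pool.Agent.Helper99.ML (BTb)
open scoped Pointwise IntermediateField

/-- the estimate for the primes -/
theorem one57 (hBTL : StmtBTL) {k L : Type} [Field k] [NumberField k] [Field L] [NumberField L]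
    [Algebra k L] [IsGalois k L] {f : k[X]} (X : Ctx k L f) {ℓ : ℕ} (hp : ℓ.Prime)
    (hM : ℓ ∣ X.M) (hmu : ∃ ζ : k, IsPrimitiveRoot ζ ℓ) (hm : 0 < X.m) {ε : ℝ} (hε : 0 < ε) :
    ∃ (C : ℝ) (A : ℕ), 0 < C ∧ ∀ (j : Fin X.m) (m : Finset (Pr k)), (∀ p ∈ m, Gd X.M p) →
      ∀ I : Pr k → Finset L, (∀ p ∈ m, ∀ ρ ∈ I p, ρ ∈ X.R p ∧ X.cmp hm ρ = j) →
      ∀ (t : Pr k → L → rootsOfUnity ℓ k) (h : ℕ), 2 ≤ h → (∏ p ∈ m, nm p) ^ A ≤ h →
      ∀ S : Finset (Pr k), (∀ Q ∈ S, Gd X.M Q ∧ Q ∉ m ∧ nm Q ≤ h ∧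
        ∃ o ∈ X.Fx Q, X.cmp hm o = j ∧ ∀ p ∈ m, ∀ ρ ∈ I p,
          chl X ℓ p (X.len p ρ) (aeval ρ (X.B Q o)) = t p ρ) →
      (S.card : ℝ) ≤ C * (∏ p ∈ m, (1 / ℓ : ℝ) ^ (I p).card) * (h / Real.log h ^ (1 - ε)) := by
  classical
  -- one root for every class
  have hθ : ∀ j : Fin X.m, ∃ θ ∈ X.Ω, minpoly k θ = (X.cls.equivFin.symm j).1 := by
    intro j
    obtain ⟨θ, hθ, h⟩ := Finset.mem_image.1 (X.cls.equivFin.symm j).2
    exact ⟨θ, hθ, h⟩
  choose θ hθ hθj using hθ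
  have hcmp : ∀ ρ ∈ X.Ω, ∀ j, X.cmp hm ρ = j → minpoly k ρ = minpoly k (θ j) := by
    intro ρ hρ j hj
    have h1 : minpoly k ρ ∈ X.cls := Finset.mem_image_of_mem _ hρ
    have h2 : X.cls.equivFin ⟨minpoly k ρ, h1⟩ = j := by
      rw [← hj]
      have h3 : X.cmp hm ρ = X.cls.equivFin ⟨minpoly k ρ, h1⟩ := by
        unfold Ctx.cmp
        exact dif_pos h1
      exact h3.symm
    rw [hθj, ← h2, Equiv.symm_apply_apply]
  have hB := fun j => hBTL ℓ hp k⟮θ j⟯ X.K X.hK ε hε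
  choose C A h₀ hC hB using hB
  set N := X.Ω.card with hN
  set n := Module.finrank ℚ k with hn
  obtain ⟨κ, hκ⟩ := exists_nat_gt (X.K ^ 2)
  set A' : ℕ := N ^ 2 * (∑ j, A j) + 4 * N with hA'
  set H : ℕ := (∑ j, h₀ j) + κ + 3 with hH
  set G : ℕ → ℝ := fun h => (h : ℝ) / Real.log h ^ (1 - ε) with hG
  have hGpos : ∀ h : ℕ, 2 ≤ h → 0 < G h := by
    intro h hh
    have hh' : (2 : ℝ) ≤ h := by exact_mod_cast hh
    have h1 : 0 < Real.log h := Real.log_pos (by linarith)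
    exact div_pos (by linarith) (Real.rpow_pos_of_pos h1 _)
  set C₁ : ℝ := ∑ h ∈ (Finset.range H).filter (2 ≤ ·), (n : ℝ) * h * h / G h with hC₁
  have hC₁0 : ∀ h ∈ (Finset.range H).filter (2 ≤ ·), 0 ≤ (n : ℝ) * h * h / G h := by
    intro h hh
    have := hGpos h (Finset.mem_filter.1 hh).2
    positivity
  have hl2 : (2 : ℝ) ≤ ℓ := by exact_mod_cast hp.two_le
  have hl0 : (0 : ℝ) < ℓ := by linarith
  refine ⟨n * ∑ j, C j + n * 4 + C₁ + 1, A', ?_, ?_⟩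
  · have h1 : 0 ≤ ∑ j, C j := Finset.sum_nonneg fun j _ => (hC j).le
    have h2 : 0 ≤ C₁ := Finset.sum_nonneg hC₁0
    positivity
  intro j m hmGd I hI' t h hh hNm S hS
  have hh' : (2 : ℝ) ≤ h := by exact_mod_cast hh
  have h0 : (0 : ℝ) < h := by linarith
  have hI : ∀ p ∈ m, ∀ ρ ∈ I p, ρ ∈ X.R p ∧ minpoly k ρ = minpoly k (θ j) := fun p hp ρ hρ =>
    ⟨(hI' p hp ρ hρ).1, hcmp ρ (X.R_sub p (hI' p hp ρ hρ).1) j (hI' p hp ρ hρ).2⟩
  set w : ℝ := ∏ p ∈ m, (1 / ℓ : ℝ) ^ (I p).card with hw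
  have hGd' : (S.card : ℝ) ≤ (n * ∑ j, C j + n * 4 + C₁ + 1) * (w * G h) := by
    have hNm' : (∏ p ∈ m, nm p) ^ A' ≤ h := hNm
    have hm1 : 1 ≤ ∏ p ∈ m, nm p := Finset.one_le_prod' fun p _ => (nm_two p).trans' one_le_two
    -- the lower bound of `w`
    have hw0 : (h : ℝ) ^ (-(1 / 4) : ℝ) ≤ w := by
      have h1 : ((∏ p ∈ m, nm p : ℕ) : ℝ) ^ N ≤ (h : ℝ) ^ (1 / 4 : ℝ) := by
        have h2 : (∏ p ∈ m, nm p) ^ (4 * N) ≤ h :=
          (Nat.pow_le_pow_right hm1 (by omega)).trans hNm'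
        have h3 : (((∏ p ∈ m, nm p : ℕ) : ℝ) ^ N) ^ 4 ≤ h := by
          rw [← pow_mul, mul_comm N 4]
          exact_mod_cast h2
        have h4 : ((((∏ p ∈ m, nm p : ℕ) : ℝ) ^ N) ^ 4) ^ (1 / 4 : ℝ) ≤ (h : ℝ) ^ (1 / 4 : ℝ) :=
          Real.rpow_le_rpow (by positivity) h3 (by norm_num)
        rwa [← Real.rpow_natCast (((∏ p ∈ m, nm p : ℕ) : ℝ) ^ N) 4, ← Real.rpow_mul (by positivity),
          show ((4 : ℕ) : ℝ) * (1 / 4) = 1 by norm_num, Real.rpow_one] at h4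
      have h5 : (((∏ p ∈ m, nm p : ℕ) : ℝ) ^ N)⁻¹ ≤ w := by
        rw [hw, Nat.cast_prod, ← Finset.prod_pow, ← Finset.prod_inv_distrib]
        refine Finset.prod_le_prod (fun p _ => by positivity) fun p hp' => ?_
        have h6 : (ℓ : ℝ) ≤ nm p := by
          obtain ⟨a1, a2⟩ := l_dvd57 X hp hM hmu (hmGd p hp')
          have a3 := nm_two p
          have a4 := Nat.le_of_dvd (by omega) a1
          exact_mod_cast (by omega : ℓ ≤ nm p)
        have h7 : (I p).card ≤ N :=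
          (Finset.card_le_card fun ρ hρ => (hI p hp' ρ hρ).1).trans (X.R_card p)
        calc ((nm p : ℝ) ^ N)⁻¹ ≤ ((ℓ : ℝ) ^ N)⁻¹ :=
              inv_anti₀ (by positivity) (pow_le_pow_left₀ hl0.le h6 N)
          _ = (1 / ℓ : ℝ) ^ N := by rw [one_div, inv_pow]
          _ ≤ (1 / ℓ : ℝ) ^ (I p).card := by
            refine pow_le_pow_of_le_one (by positivity) ?_ h7
            rw [div_le_one hl0]
            linarith
      refine le_trans ?_ h5
      rw [Real.rpow_neg h0.le]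
      exact inv_anti₀ (by positivity) h1
    have hwpos : 0 < w := (Real.rpow_pos_of_pos h0 _).trans_le hw0
    have hwG : 0 < w * G h := mul_pos hwpos (hGpos h hh)
    have hSC : C j ≤ ∑ j, C j := Finset.single_le_sum (fun j _ => (hC j).le) (Finset.mem_univ j)
    have hSC0 : 0 ≤ ∑ j, C j := (hC j).le.trans hSC
    have hC₁pos : 0 ≤ C₁ := Finset.sum_nonneg hC₁0
    by_cases hhH : h < H
    · -- small `h`
      have h1 : (S.card : ℝ) ≤ n * h := by
        exact_mod_cast card_all S h fun Q hQ => (hS Q hQ).2.2.1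
      have h2 : (n : ℝ) * h * h / G h ≤ C₁ :=
        Finset.single_le_sum hC₁0 (Finset.mem_filter.2 ⟨Finset.mem_range.2 hhH, hh⟩)
      have h3 : (h : ℝ)⁻¹ ≤ w := by
        refine le_trans ?_ hw0
        rw [← Real.rpow_neg_one]
        exact Real.rpow_le_rpow_of_exponent_le (by linarith) (by norm_num)
      have h4 : (n : ℝ) * h ≤ C₁ * (w * G h) := by
        calc (n : ℝ) * h = (n : ℝ) * h * h / G h * ((h : ℝ)⁻¹ * G h) := by
              have := (hGpos h hh).ne'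
              field_simp
          _ ≤ C₁ * (w * G h) :=
              mul_le_mul h2 (mul_le_mul_of_nonneg_right h3 (hGpos h hh).le)
                (mul_nonneg (by positivity) (hGpos h hh).le) hC₁pos
      have h5 : 0 ≤ (n * ∑ j, C j + n * 4 + 1) * (w * G h) := by positivity
      linarith
    · -- large `h`
      rw [not_lt] at hhH
      have hA1 : A j ≤ ∑ j, A j := Finset.single_le_sum (fun _ _ => Nat.zero_le _) (Finset.mem_univ j)
      have hh1 : h₀ j ≤ ∑ j, h₀ j :=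
        Finset.single_le_sum (fun _ _ => Nat.zero_le _) (Finset.mem_univ j)
      let S₂ := S.filter fun Q => (nm Q).Prime ∧ h ≤ nm Q ^ 2
      let S₁ := S.filter fun Q => ¬ ((nm Q).Prime ∧ h ≤ nm Q ^ 2)
      have hcard : S.card = S₂.card + S₁.card := (Finset.card_filter_add_card_filter_not _).symm
      have e1 : (S₁.card : ℝ) ≤ n * (Nat.sqrt h : ℝ) := by
        have := card_small S₁ h (fun Q hQ => (hS Q (Finset.mem_filter.1 hQ).1).2.2.1)
          (fun Q hQ hp => by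
            by_contra h'
            exact (Finset.mem_filter.1 hQ).2 ⟨hp, not_lt.1 h'⟩)
        exact_mod_cast this
      have e2 : (S₂.card : ℝ) ≤ n * (C j * w * G h) := by
        refine main_est57 X hp hM hmu (hθ j) (hB j h (by omega)) ?_ m hmGd I hI t ?_ S₂ ?_
        · refine hκ.trans_le ?_
          have : κ ≤ h := by omega
          exact_mod_cast this
        · refine (Nat.pow_le_pow_right hm1 ?_).trans hNm'
          have : N ^ 2 * A j ≤ N ^ 2 * ∑ j, A j := Nat.mul_le_mul_left _ hA1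
          exact this.trans (Nat.le_add_right _ _)
        · intro Q hQ
          obtain ⟨hQS, hQp, hQh⟩ := Finset.mem_filter.1 hQ
          obtain ⟨a1, a2, a3, o, a4, a5, a6⟩ := hS Q hQS
          exact ⟨a1, a2, a3, hQp, hQh, o, a4, hcmp o (Finset.mem_filter.1 a4).1 j a5, a6⟩
      have e3 := wt_le (h := h) (by omega) hε hw0
      have e4 : (n : ℝ) * (Nat.sqrt h : ℝ) ≤ n * 4 * (w * G h) := by
        rw [mul_assoc]
        exact mul_le_mul_of_nonneg_left e3 (Nat.cast_nonneg _)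
      have e5 : (n : ℝ) * (C j * w * G h) ≤ n * (∑ j, C j) * (w * G h) := by
        have : (n : ℝ) * (C j * w * G h) = n * C j * (w * G h) := by ring
        rw [this]
        exact mul_le_mul_of_nonneg_right (mul_le_mul_of_nonneg_left hSC (Nat.cast_nonneg _)) hwG.le
      have e6 : 0 ≤ (C₁ + 1) * (w * G h) := by positivity
      have e7 : (S.card : ℝ) = S₂.card + S₁.card := by exact_mod_cast hcard
      rw [e7]
      linarith
  rw [← mul_assoc] at hGd'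
  exact hGd'

/-- inverting an exponent prime to `ℓ` -/
theorem root_pow_inv57 {k : Type} [Field k] {ℓ : ℕ} (hp : ℓ.Prime) (x : rootsOfUnity ℓ k) {r : ℕ}
    (hr : ¬ ℓ ∣ r) : (x ^ r) ^ (((r % ℓ : ℕ) : ZMod ℓ)⁻¹).val = x := by
  have : Fact ℓ.Prime := ⟨hp⟩
  have hr0 : (r : ZMod ℓ) ≠ 0 := by
    rwa [Ne, ZMod.natCast_eq_zero_iff]
  rw [ZMod.natCast_mod]
  have h1 : ((r * ((r : ZMod ℓ)⁻¹).val : ℕ) : ZMod ℓ) = ((1 : ℕ) : ZMod ℓ) := by
    rw [Nat.cast_mul, ZMod.natCast_zmod_val, mul_inv_cancel₀ hr0, Nat.cast_one]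
  have h2 := (ZMod.natCast_eq_natCast_iff _ _ _).1 h1
  rw [← pow_mul, ← pow_mod_orderOf]
  have h3 : orderOf x ∣ ℓ := orderOf_dvd_of_pow_eq_one (root_pow x)
  have h4 : r * ((r : ZMod ℓ)⁻¹).val % orderOf x = 1 % orderOf x := h2.of_dvd h3
  rw [h4, pow_mod_orderOf, pow_one]

/-- **BLOCK G2** -/
theorem g2 : StmtG2 := by
  intro hBTL _ k L _ _ _ _ _ _ f X n ℓ _ hp hmu hM hm hfin ι Vι Al w g hw ε hε
  classical
  obtain ⟨C, A, hC, h1⟩ := one57 hBTL X hp hM hmu hm hε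
  refine ⟨(n * ℓ + 1) * C, A, by positivity, ?_⟩
  intro j (m : Finset (Pr k × Fin n)) hmEx (hOk : OkL m)
    (τ : Pr k × Fin n → (Σ _ : L × rootsOfUnity ℓ k, ι)) hτ
    (t : Pr k × Fin n → L → rootsOfUnity ℓ k) h hh hNm (S : Finset (Pr k × Fin n)) hS
  set D := cdL X n ℓ hm hfin ι Vι Al w g with hD
  have hGd : ∀ p : Pr k × Fin n, p ∉ D.Ex → Gd X.M p.1 := by
    intro p hp'
    by_contra h2
    exact hp' (Finset.mem_product.2 ⟨hfin.mem_toFinset.2 h2, Finset.mem_univ _⟩)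
  -- the primes of `m`
  let m₁ : Finset (Pr k) := m.image Prod.fst
  let I₁ : Pr k → Finset L := fun q => if hq : ∃ p ∈ m, p.1 = q then
    D.I hq.choose (τ hq.choose) j else ∅
  have hch : ∀ p ∈ m, ∀ hq : ∃ p' ∈ m, p'.1 = p.1, hq.choose = p := fun p hpm hq =>
    hOk hq.choose_spec.1 hpm hq.choose_spec.2
  have hI₁ : ∀ p ∈ m, I₁ p.1 = D.I p (τ p) j := by
    intro p hpm
    have hex : ∃ p' ∈ m, p'.1 = p.1 := ⟨p, hpm, rfl⟩
    have h2 : I₁ p.1 = D.I hex.choose (τ hex.choose) j := dif_pos hex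
    rw [h2, hch p hpm hex]
  have hprod : ∏ q ∈ m₁, (1 / ℓ : ℝ) ^ (I₁ q).card = ∏ p ∈ m, (1 / ℓ : ℝ) ^ (D.I p (τ p) j).card := by
    rw [Finset.prod_image hOk]
    exact Finset.prod_congr rfl fun p hpm =>
      congrArg (fun s : Finset L => (1 / ℓ : ℝ) ^ s.card) (hI₁ p hpm)
  have hnm : ∏ q ∈ m₁, nm q = Nm D m := Finset.prod_image hOk
  -- the parts of `S`
  let Sp : Fin n × ℕ → Finset (Pr k × Fin n) := fun er => S.filter fun Q => Q.2 = er.1 ∧
    ∃ o ∈ D.V Q, D.cmp o = j ∧ w o.1.1 Q.2 % ℓ = er.2 ∧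
      ∀ p ∈ m, ∀ i ∈ D.I p (τ p) j, D.χ p i Q o = t p i
  have hcov : S ⊆ (Finset.univ ×ˢ Finset.range ℓ).biUnion Sp := by
    intro Q hQ
    obtain ⟨-, -, -, -, o, ho, hoj, ho3⟩ := hS Q hQ
    refine Finset.mem_biUnion.2 ⟨(Q.2, w o.1.1 Q.2 % ℓ), Finset.mem_product.2 ⟨Finset.mem_univ _,
      Finset.mem_range.2 (Nat.mod_lt _ hp.pos)⟩, ?_⟩
    exact Finset.mem_filter.2 ⟨hQ, rfl, o, ho, hoj, rfl, ho3⟩
  have hpart : ∀ er ∈ (Finset.univ : Finset (Fin n)) ×ˢ Finset.range ℓ, ((Sp er).card : ℝ) ≤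
      C * (∏ p ∈ m, (1 / ℓ : ℝ) ^ (D.I p (τ p) j).card) * (h / Real.log h ^ (1 - ε)) := by
    rintro ⟨e, r⟩ -
    have hinj : Set.InjOn Prod.fst (Sp (e, r) : Set (Pr k × Fin n)) := by
      intro Q hQ Q' hQ' hQQ
      have h2 := (Finset.mem_filter.1 hQ).2.1
      have h3 := (Finset.mem_filter.1 hQ').2.1
      exact Prod.ext hQQ (h2.trans h3.symm)
    rw [← Finset.card_image_of_injOn hinj, ← hprod]
    refine h1 j m₁ ?_ I₁ ?_ (fun q ρ => if hq : ∃ p ∈ m, p.1 = q then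
      (t hq.choose ρ) ^ ((r : ZMod ℓ)⁻¹).val else 1) h hh (by rw [hnm]; exact hNm) _ ?_
    · intro q hq
      obtain ⟨p, hpm, rfl⟩ := Finset.mem_image.1 hq
      exact hGd p (hmEx p hpm)
    · intro q hq ρ hρ
      obtain ⟨p, hpm, rfl⟩ := Finset.mem_image.1 hq
      rw [hI₁ p hpm] at hρ
      have h2 := Finset.mem_filter.1 (Finset.mem_of_mem_erase hρ)
      exact h2
    · intro q hq
      obtain ⟨Q, hQ, rfl⟩ := Finset.mem_image.1 hq
      obtain ⟨hQS, hQe, o, ho, hoj, hor, ho3⟩ := Finset.mem_filter.1 hQ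
      obtain ⟨a1, a2, ⟨m', a3, a4, a5⟩, a6, -⟩ := hS Q hQS
      have ho1 := Finset.mem_product.1 (Finset.mem_sigma.1 ho).1
      have ho2 := Finset.mem_filter.1 ho1.1
      refine ⟨hGd Q a1, ?_, a6, o.1.1, ho2.1, hoj, ?_⟩
      · intro hqm
        obtain ⟨p, hpm, hpq⟩ := Finset.mem_image.1 hqm
        have : p = Q := a3 (a5 hpm) a4 hpq
        exact a2 (this ▸ hpm)
      · intro q hq ρ hρ
        obtain ⟨p, hpm, rfl⟩ := Finset.mem_image.1 hq
        rw [hI₁ p hpm] at hρ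
        have hex : ∃ p' ∈ m, p'.1 = p.1 := ⟨p, hpm, rfl⟩
        have h2 := ho3 p hpm ρ hρ
        have h3 : chl X ℓ p.1 (X.len p.1 ρ) (aeval ρ (X.B Q.1 o.1.1)) ^ w o.1.1 Q.2 = t p ρ := h2
        have h4 := root_pow_inv57 hp (chl X ℓ p.1 (X.len p.1 ρ) (aeval ρ (X.B Q.1 o.1.1)))
          (hw Q.2 o.1.1 ho2.2)
        rw [h3, hor] at h4
        refine h4.symm.trans (Eq.trans ?_ (dif_pos hex).symm)
        rw [hch p hpm hex]
  have hsum : (S.card : ℝ) ≤ ∑ er ∈ (Finset.univ : Finset (Fin n)) ×ˢ Finset.range ℓ,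
      ((Sp er).card : ℝ) := by
    have h2 : S.card ≤ ∑ er ∈ (Finset.univ : Finset (Fin n)) ×ˢ Finset.range ℓ, (Sp er).card :=
      (Finset.card_le_card hcov).trans Finset.card_biUnion_le
    exact_mod_cast h2
  refine hsum.trans ((Finset.sum_le_sum hpart).trans ?_)
  rw [Finset.sum_const, Finset.card_product, Finset.card_univ, Fintype.card_fin, Finset.card_range,
    nsmul_eq_mul]
  have hh' : (2 : ℝ) ≤ h := by exact_mod_cast hh
  have h2 : 0 < Real.log h := Real.log_pos (by linarith)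
  have h3 : 0 ≤ C * (∏ p ∈ m, (1 / ℓ : ℝ) ^ (D.I p (τ p) j).card) * (h / Real.log h ^ (1 - ε)) := by
    have := Real.rpow_pos_of_pos h2 (1 - ε)
    positivity
  have h4 : ((n * ℓ : ℕ) : ℝ) * (C * (∏ p ∈ m, (1 / ℓ : ℝ) ^ (D.I p (τ p) j).card) *
      (h / Real.log h ^ (1 - ε))) ≤ (n * ℓ + 1) * C * (∏ p ∈ m, (1 / ℓ : ℝ) ^ (D.I p (τ p) j).card) *
      (h / Real.log h ^ (1 - ε)) := by
    push_cast
    linarith
  exact h4

end Pool.Agent.ML
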