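import Pool.Agent.Helper45.ML.Defs

/-!
# Project ML, block COC: Hilbert 90 for roots of unity
-/

set_option autoImplicit false

namespace Pool.Agent.ML

theorem coc : StmtCOC := by
  intro k E _ _ _ _ _ ℓ S _ _ ε hℓ hε hL
  classical
  choose L hLf hLε using hL
  -- one field
  let L' : IntermediateField k E := ⨆ π, L π
  have hfin : FiniteDimensional k L' := IntermediateField.finiteDimensional_iSup_of_finite
  have hle : ∀ π, L π ≤ L' := le_iSup L
  have htriv : ∀ g : E ≃ₐ[k] E, (∀ x ∈ L', g x = x) → ∀ π, ε g π = 1 ∧ g • π = π :=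
    fun g hg π => hLε π g fun x hx => hg x (hle π hx)
  have hcomp : ∀ g g' : E ≃ₐ[k] E, (∀ x ∈ L', g x = g' x) →
      ∀ π, ε g π = ε g' π ∧ g⁻¹ • π = g'⁻¹ • π := by
    intro g g' h π
    have h1 : ∀ x ∈ L', (g'⁻¹ * g) x = x := by
      intro x hx
      rw [AlgEquiv.mul_apply, h x hx]
      exact g'.symm_apply_apply x
    have h2 : g = g' * (g'⁻¹ * g) := by group
    have h3 : ∀ π : S, g • π = g' • π := by
      intro π
      conv_lhs => rw [h2, mul_smul, (htriv _ h1 π).2]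
    constructor
    · conv_lhs => rw [h2, hε, (htriv _ h1 π).1, (htriv _ h1 π).2, one_mul]
    · rw [eq_comm, inv_smul_eq_iff, ← h3, smul_inv_smul]
  -- lifts of the embeddings
  have hlift : ∀ φ : L' →ₐ[k] E, ∃ g : E ≃ₐ[k] E, ∀ x : L', g x = φ x := by
    intro φ
    refine ⟨AlgEquiv.ofBijective (φ.liftNormal E) (AlgHom.normal_bijective k E E _), fun x => ?_⟩
    exact AlgHom.liftNormal_commutes φ E x
  choose G hG using hlift
  let c : S → (L' →ₐ[k] E) → rootsOfUnity ℓ k := fun π φ => (ε (G φ) ((G φ)⁻¹ • π))⁻¹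
  let v : rootsOfUnity ℓ k → E := fun ζ => algebraMap k E ((ζ : kˣ) : k)
  have hv0 : ∀ ζ, v ζ ≠ 0 := fun ζ => (map_ne_zero _).2 (ζ : kˣ).ne_zero
  have hvm : ∀ ζ ζ', v (ζ * ζ') = v ζ * v ζ' := by
    intro ζ ζ'
    simp only [v, Subgroup.coe_mul, Units.val_mul, map_mul]
  let T : S → (L' →ₗ[k] E) := fun π => ∑ φ : L' →ₐ[k] E, v (c π φ) • φ.toLinearMap
  have hT : ∀ π, T π ≠ 0 := by
    intro π h
    exact hv0 _ ((Fintype.linearIndependent_iff.1 (linearIndependent_toLinearMap k L' E))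
      (fun φ => v (c π φ)) h L'.val)
  -- a good element
  obtain ⟨x, hx⟩ : ∃ x : L', ∀ π, T π x ≠ 0 := by
    by_contra hcon
    push Not at hcon
    have h1 : ⊤ ∉ Finset.image (fun π => LinearMap.ker (T π))
        (@Finset.univ S (Fintype.ofFinite S)) := by
      intro h2
      obtain ⟨π, -, h3⟩ := Finset.mem_image.1 h2
      exact hT π (LinearMap.ker_eq_top.1 h3)
    refine Subspace.biUnion_ne_univ_of_top_notMem h1 (Set.eq_univ_of_forall fun x => ?_)
    obtain ⟨π, hπ⟩ := hcon x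
    refine Set.mem_iUnion₂.2 ⟨LinearMap.ker (T π), ?_, hπ⟩
    exact Finset.mem_image.2 ⟨π, @Finset.mem_univ S (Fintype.ofFinite S) π, rfl⟩
  refine ⟨fun π => T π x, hx, fun g π => ?_⟩
  have hTx : ∀ π, T π x = ∑ φ : L' →ₐ[k] E, v (c π φ) * φ x := by
    intro π
    simp [T, LinearMap.sum_apply]
  -- composition with `g`
  let e : (L' →ₐ[k] E) ≃ (L' →ₐ[k] E) :=
    { toFun := fun φ => (g : E →ₐ[k] E).comp φ
      invFun := fun φ => ((g⁻¹ : E ≃ₐ[k] E) : E →ₐ[k] E).comp φ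
      left_inv := fun φ => by
        ext y
        exact g.symm_apply_apply (φ y)
      right_inv := fun φ => by
        ext y
        exact g.apply_symm_apply (φ y) }
  have hc : ∀ φ, c π φ = ε g π * c (g • π) (e φ) := by
    intro φ
    have h1 : ∀ y ∈ L', G (e φ) y = (g * G φ) y := by
      intro y hy
      have h2 := hG (e φ) ⟨y, hy⟩
      have h3 := hG φ ⟨y, hy⟩
      change G (e φ) y = _ at h2
      change G φ y = _ at h3
      rw [h2, AlgEquiv.mul_apply, h3]
      rfl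
    have h2 : c (g • π) (e φ) = (ε (g * G φ) ((g * G φ)⁻¹ • g • π))⁻¹ := by
      change (ε (G (e φ)) ((G (e φ))⁻¹ • g • π))⁻¹ = _
      rw [(hcomp _ _ h1 _).1, (hcomp _ _ h1 _).2]
    have h3 : (g * G φ)⁻¹ • g • π = (G φ)⁻¹ • π := by
      rw [mul_inv_rev, mul_smul, inv_smul_smul]
    rw [h2, h3, hε, smul_inv_smul]
    change (ε (G φ) ((G φ)⁻¹ • π))⁻¹ = _
    rw [mul_inv_rev, mul_inv_cancel_left]
  change g (T π x) = v (ε g π) * T (g • π) x
  rw [hTx, hTx, map_sum, Finset.mul_sum]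
  refine Fintype.sum_equiv e _ _ fun φ => ?_
  rw [map_mul, hc φ, ← mul_assoc, ← hvm]
  congr 1
  exact g.commutes _

end Pool.Agent.ML
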