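import Pool.Agent.Helper13.ML.Chr
import Pool.Agent.Helper97.HG.G2

/-!
# Project ML, block G2, part 1: the main estimate for one class, with symbols of order `ℓ`
-/

set_option autoImplicit false

namespace Pool.Agent.ML

open Polynomial NumberField IsDedekindDomain
open Pool.Agent.HG
open scoped Pointwise IntermediateField

section

variable {k L : Type} [Field k] [NumberField k] [Field L] [NumberField L] [Algebra k L]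
  [IsGalois k L] {f : k[X]} (X : Ctx k L f) {ℓ : ℕ}

/-- the root of unity as an integer of `E` -/
noncomputable def zE57 (k E : Type) [Field k] [NumberField k] [Field E] [Algebra k E] {ℓ : ℕ}
    (hp : ℓ ≠ 0) (ζ : rootsOfUnity ℓ k) : 𝓞 E :=
  ⟨em k E ζ, by
    have h : IsIntegral ℤ (em k E ζ ^ ℓ) := by
      rw [em_pow_eq]
      exact isIntegral_one
    exact IsIntegral.of_pow (Nat.pos_of_ne_zero hp) h⟩

theorem l_dvd57 (hp : ℓ.Prime) (hM : ℓ ∣ X.M) (hmu : ∃ ζ : k, IsPrimitiveRoot ζ ℓ) {v : Pr k}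
    (hv : Gd X.M v) : ℓ ∣ nm v - 1 ∧ 1 ≤ nm v := by
  obtain ⟨p, h1, h2, h3⟩ := hv
  exact nm_one X hp hM hmu h1 h2 h3

theorem chl_mk57 (hp : ℓ.Prime) (hM : ℓ ∣ X.M) (hmu : ∃ ζ : k, IsPrimitiveRoot ζ ℓ) {θ : L}
    {v : Pr k} (hv : Gd X.M v) (e : k⟮θ⟯ →ₐ[k] L) {ρ : L}
    (he : e (IntermediateField.AdjoinSimple.gen k θ) = ρ) (hρ : ρ ∈ X.Ω) (x : 𝓞 k⟮θ⟯) (B : k[X])
    (hx : (x : k⟮θ⟯) = aeval (IntermediateField.AdjoinSimple.gen k θ) B)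
    (hx' : x ∉ (pull (e : k⟮θ⟯ →+* L) (X.P v)).asIdeal) :
    Ideal.Quotient.mk (pull (e : k⟮θ⟯ →+* L) (X.P v)).asIdeal x ^
        ((nm (pull (e : k⟮θ⟯ →+* L) (X.P v)) - 1) / ℓ) =
      Ideal.Quotient.mk (pull (e : k⟮θ⟯ →+* L) (X.P v)).asIdeal
        (zE57 k k⟮θ⟯ hp.ne_zero (chl X ℓ v (X.len v ρ) (aeval ρ B))) := by
  classical
  have hnm := X.nm_pull' hv e he hρ
  obtain ⟨hd, h1⟩ := l_dvd57 X hp hM hmu hv
  have hex : (e : k⟮θ⟯ →+* L) (x : k⟮θ⟯) = aeval ρ B := by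
    rw [← he, aeval_algHom_apply, ← hx]
    rfl
  have hu1 : (X.P v).valuation L (aeval ρ B) = 1 := by
    rw [← hex, ← RingOfIntegers.mapRingHom_apply, val_int_one, ← mem_pull]
    exact hx'
  have hF : (X.F v ^ X.len v ρ) (aeval ρ B) = aeval ρ B := by
    have h2 : (X.F v ^ X.len v ρ) ρ = ρ := X.fix_of_dvd dvd_rfl
    have h3 : aeval ((X.F v ^ X.len v ρ) ρ) B = (X.F v ^ X.len v ρ) (aeval ρ B) :=
      aeval_algHom_apply ((X.F v ^ X.len v ρ : L ≃ₐ[k] L) : L →ₐ[k] L) ρ B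
    rw [← h3, h2]
  have hun := X.un_of_fixed hu1 hF
  have hsp := sym_spec (k := k) (P := X.P v) hp hmu (q := nm v ^ X.len v ρ)
    (dvd_pow_sub hd _) (Nat.one_le_pow _ _ h1) hun
  rw [← chl_eq] at hsp
  rw [← map_pow, Ideal.Quotient.eq, mem_pull, ← val_int_lt, RingOfIntegers.mapRingHom_apply, hnm]
  have h4 : (e : k⟮θ⟯ →+* L) (((x ^ ((nm v ^ X.len v ρ - 1) / ℓ) -
      zE57 k k⟮θ⟯ hp.ne_zero (chl X ℓ v (X.len v ρ) (aeval ρ B)) : 𝓞 k⟮θ⟯)) : k⟮θ⟯) =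
      aeval ρ B ^ ((nm v ^ X.len v ρ - 1) / ℓ) -
        em k L (chl X ℓ v (X.len v ρ) (aeval ρ B)) := by
    have hex' : e (x : k⟮θ⟯) = aeval ρ B := hex
    push_cast
    rw [map_sub, map_pow, hex']
    congr 1
    exact e.commutes _
  rw [h4]
  exact hsp.2.2

/-- The main estimate for one class and large `h`. -/
theorem main_est57 (hp : ℓ.Prime) (hM : ℓ ∣ X.M) (hmu : ∃ ζ : k, IsPrimitiveRoot ζ ℓ) {θ : L}
    (hθ : θ ∈ X.Ω) {C : ℝ} {A : ℕ} {ε : ℝ} {h : ℕ}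
    (hB : ∀ MM : Finset (Pr k⟮θ⟯),
      (∀ q ∈ MM, ℓ ∣ nm q - 1) → (∏ q ∈ MM, nm q) ^ A ≤ h →
      ∀ η : ∀ q : Pr k⟮θ⟯, 𝓞 k⟮θ⟯ ⧸ q.asIdeal, ∀ T : Finset (𝓞 k⟮θ⟯),
        (∀ x ∈ T, (∀ φ : k⟮θ⟯ →+* ℂ, ‖φ x‖ ≤ X.K * (h : ℝ) ^ ((1 : ℝ) / Module.finrank ℚ k⟮θ⟯)) ∧
          (∃ a r : ℕ, r.Prime ∧ h ≤ r ^ 2 ∧ a ≠ 0 ∧ (a : ℝ) ≤ X.K ∧
            Ideal.absNorm (Ideal.span {x}) = a * r) ∧
          ∀ q ∈ MM, x ∉ q.asIdeal ∧ Ideal.Quotient.mk q.asIdeal x ^ ((nm q - 1) / ℓ) = η q) →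
        (T.card : ℝ) ≤ C * (1 / ℓ) ^ MM.card * (h / Real.log h ^ (1 - ε)))
    (hK : X.K ^ 2 < h) (m : Finset (Pr k)) (hm : ∀ p ∈ m, Gd X.M p) (I : Pr k → Finset L)
    (hI : ∀ p ∈ m, ∀ ρ ∈ I p, ρ ∈ X.R p ∧ minpoly k ρ = minpoly k θ)
    (t : Pr k → L → rootsOfUnity ℓ k)
    (hmA : (∏ p ∈ m, nm p) ^ (X.Ω.card ^ 2 * A) ≤ h)
    (S : Finset (Pr k)) (hS : ∀ Q ∈ S, Gd X.M Q ∧ Q ∉ m ∧ nm Q ≤ h ∧ (nm Q).Prime ∧ h ≤ nm Q ^ 2 ∧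
      ∃ o ∈ X.Fx Q, minpoly k o = minpoly k θ ∧ ∀ p ∈ m, ∀ ρ ∈ I p,
        chl X ℓ p (X.len p ρ) (aeval ρ (X.B Q o)) = t p ρ) :
    (S.card : ℝ) ≤ Module.finrank ℚ k *
      (C * (∏ p ∈ m, (1 / ℓ : ℝ) ^ (I p).card) * (h / Real.log h ^ (1 - ε))) := by
  classical
  -- the embeddings
  have hem : ∀ ρ : L, ∃ e : k⟮θ⟯ →ₐ[k] L, minpoly k ρ = minpoly k θ →
      e (IntermediateField.AdjoinSimple.gen k θ) = ρ := by
    intro ρ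
    by_cases h1 : minpoly k ρ = minpoly k θ
    · obtain ⟨e, he⟩ := exists_emb h1
      exact ⟨e, fun _ => he⟩
    · exact ⟨IntermediateField.val _, fun h2 => absurd h2 h1⟩
  choose e he using hem
  let Sg : Finset (Σ _ : Pr k, L) := m.sigma I
  let q : (Σ _ : Pr k, L) → Pr k⟮θ⟯ := fun s => pull (e s.2 : k⟮θ⟯ →+* L) (X.P s.1)
  have hq : ∀ s, q s = pull (e s.2 : k⟮θ⟯ →+* L) (X.P s.1) := fun s => rfl
  have hSg : ∀ s ∈ Sg, s.1 ∈ m ∧ s.2 ∈ I s.1 := fun s hs => Finset.mem_sigma.1 hs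
  have hinj : Set.InjOn q Sg := by
    rintro ⟨p, ρ⟩ hs ⟨p', ρ'⟩ hs' hqq
    obtain ⟨h1, h2⟩ := hSg _ hs
    obtain ⟨h1', h2'⟩ := hSg _ hs'
    dsimp only at h1 h2 h1' h2'
    have hpp : p = p' := by
      apply HeightOneSpectrum.ext
      rw [← pull_comap (X.comap p) (e ρ), ← pull_comap (X.comap p') (e ρ')]
      have : pull (e ρ : k⟮θ⟯ →+* L) (X.P p) = pull (e ρ' : k⟮θ⟯ →+* L) (X.P p') := hqq
      rw [this]
    subst hpp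
    obtain ⟨h3, h4⟩ := hI p h1 ρ h2
    obtain ⟨h3', h4'⟩ := hI p h1 ρ' h2'
    have := X.pull_inj (hm p h1) (e ρ) (e ρ') (he ρ h4) (he ρ' h4') h3 h3' hqq
    rw [this]
  have hnq : ∀ s ∈ Sg, nm (q s) = nm s.1 ^ X.len s.1 s.2 := by
    intro s hs
    obtain ⟨h1, h2⟩ := hSg _ hs
    obtain ⟨h3, h4⟩ := hI s.1 h1 s.2 h2
    exact X.nm_pull' (hm _ h1) (e s.2) (he _ h4) (X.R_sub _ h3)
  let MM : Finset (Pr k⟮θ⟯) := Sg.image q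
  have hcard : MM.card = ∑ p ∈ m, (I p).card := by
    rw [Finset.card_image_of_injOn hinj, Finset.card_sigma]
  have hodd : ∀ y ∈ MM, ℓ ∣ nm y - 1 := by
    intro y hy
    obtain ⟨s, hs, rfl⟩ := Finset.mem_image.1 hy
    rw [hnq s hs]
    exact dvd_pow_sub (l_dvd57 X hp hM hmu (hm _ (hSg _ hs).1)).1 _
  have hprod : ∏ y ∈ MM, nm y ≤ (∏ p ∈ m, nm p) ^ (X.Ω.card ^ 2) := by
    rw [Finset.prod_image hinj, Finset.prod_sigma, ← Finset.prod_pow]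
    refine Finset.prod_le_prod' fun p hp => ?_
    have hp1 : 1 ≤ nm p := (nm_two p).trans' one_le_two
    calc ∏ ρ ∈ I p, nm (q ⟨p, ρ⟩) ≤ ∏ ρ ∈ I p, nm p ^ X.Ω.card := by
          refine Finset.prod_le_prod' fun ρ hρ => ?_
          rw [hnq ⟨p, ρ⟩ (Finset.mem_sigma.2 ⟨hp, hρ⟩)]
          exact Nat.pow_le_pow_right hp1 (X.len_le p (X.R_sub p (hI p hp ρ hρ).1))
      _ = (nm p ^ X.Ω.card) ^ (I p).card := by rw [Finset.prod_const]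
      _ ≤ (nm p ^ X.Ω.card) ^ X.Ω.card := by
          refine Nat.pow_le_pow_right (Nat.one_le_pow _ _ hp1) ?_
          exact (Finset.card_le_card fun ρ hρ => (hI p hp ρ hρ).1).trans (X.R_card p)
      _ = nm p ^ X.Ω.card ^ 2 := by rw [← pow_mul, sq]
  have hprodA : (∏ y ∈ MM, nm y) ^ A ≤ h := by
    refine (Nat.pow_le_pow_left hprod A).trans ?_
    rw [← pow_mul]
    exact hmA
  -- the elements
  have hx : ∀ Q ∈ S, ∃ x : 𝓞 k⟮θ⟯,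
      (∀ φ : k⟮θ⟯ →+* ℂ, ‖φ x‖ ≤ X.K * (h : ℝ) ^ ((1 : ℝ) / Module.finrank ℚ k⟮θ⟯)) ∧
      (∃ a : ℕ, a ≠ 0 ∧ (a : ℝ) ≤ X.K ∧ Ideal.absNorm (Ideal.span {x}) = a * nm Q) ∧
      ∀ s ∈ Sg, x ∉ (q s).asIdeal ∧ Ideal.Quotient.mk (q s).asIdeal x ^ ((nm (q s) - 1) / ℓ) =
        Ideal.Quotient.mk (q s).asIdeal (zE57 k k⟮θ⟯ hp.ne_zero (t s.1 s.2)) := by
    intro Q hQ
    obtain ⟨h1, h2, h3, h4, h5, o, ho, hmin, ho2⟩ := hS Q hQ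
    obtain ⟨x, hx1, hx2, hx3, hx4⟩ := X.exists_x hθ h1 ho hmin
    refine ⟨x, fun φ => (hx2 φ).trans ?_, hx3, fun s hs => ?_⟩
    · refine mul_le_mul_of_nonneg_left ?_ (zero_le_one.trans X.hK)
      exact Real.rpow_le_rpow (Nat.cast_nonneg _) (by exact_mod_cast h3) (by positivity)
    · obtain ⟨hs1, hs2⟩ := hSg s hs
      obtain ⟨hs3, hs4⟩ := hI s.1 hs1 s.2 hs2
      have hne : s.1 ≠ Q := fun h' => h2 (h' ▸ hs1)
      have hx5 := hx4 s.1 (hm _ hs1) hne (e s.2)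
      refine ⟨hx5, ?_⟩
      rw [hq, chl_mk57 X hp hM hmu (hm _ hs1) (e s.2) (he _ hs4) (X.R_sub _ hs3) x (X.B Q o) hx1
        hx5, ho2 s.1 hs1 s.2 hs2]
  choose! x hx1 hx2 hx3 using hx
  have hT := hB MM hodd hprodA (fun y => if hy : ∃ s ∈ Sg, q s = y then
      Ideal.Quotient.mk y.asIdeal (zE57 k k⟮θ⟯ hp.ne_zero (t hy.choose.1 hy.choose.2)) else 0)
      (S.image x) (by
    intro y hy
    obtain ⟨Q, hQ, rfl⟩ := Finset.mem_image.1 hy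
    obtain ⟨h1, h2, h3, h4, h5, -⟩ := hS Q hQ
    refine ⟨hx1 Q hQ, ?_, ?_⟩
    · obtain ⟨a, ha, haK, han⟩ := hx2 Q hQ
      exact ⟨a, nm Q, h4, h5, ha, haK, han⟩
    · intro y hy
      obtain ⟨s, hs, rfl⟩ := Finset.mem_image.1 hy
      obtain ⟨h6, h7⟩ := hx3 Q hQ s hs
      refine ⟨h6, ?_⟩
      have hex : ∃ s' ∈ Sg, q s' = q s := ⟨s, hs, rfl⟩
      rw [dif_pos hex, h7]
      have : hex.choose = s := hinj hex.choose_spec.1 hs hex.choose_spec.2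
      rw [this])
  -- the fibres
  have hfib := Finset.card_le_mul_card_image (f := x) S (Module.finrank ℚ k) (by
    intro y hy
    obtain ⟨Q₀, hQ₀, rfl⟩ := Finset.mem_image.1 hy
    obtain ⟨-, -, -, h4, h5, -⟩ := hS Q₀ hQ₀
    refine card_over h4 _ fun Q hQ => ?_
    obtain ⟨hQS, hxx⟩ := Finset.mem_filter.1 hQ
    obtain ⟨-, -, -, h4', h5', -⟩ := hS Q hQS
    obtain ⟨a, ha, haK, han⟩ := hx2 Q₀ hQ₀
    obtain ⟨a', ha', haK', han'⟩ := hx2 Q hQS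
    rw [hxx, han] at han'
    have hlt : ∀ (b : ℕ) (Q : Pr k), (b : ℝ) ≤ X.K → h ≤ nm Q ^ 2 → b < nm Q := by
      intro b Q hb hQ
      have h1 : (b : ℝ) ^ 2 < (nm Q : ℝ) ^ 2 := by
        calc (b : ℝ) ^ 2 ≤ X.K ^ 2 := pow_le_pow_left₀ (Nat.cast_nonneg _) hb 2
          _ < h := hK
          _ ≤ (nm Q : ℝ) ^ 2 := by exact_mod_cast hQ
      have h2 : b ^ 2 < nm Q ^ 2 := by exact_mod_cast h1
      exact lt_of_pow_lt_pow_left₀ 2 (Nat.zero_le _) h2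
    have hdvd : nm Q₀ ∣ a' * nm Q := han' ▸ Dvd.intro_left a rfl
    have heq : nm Q₀ = nm Q := by
      rcases (Nat.Prime.dvd_mul h4).1 hdvd with h6 | h6
      · exact absurd (Nat.le_of_dvd (Nat.pos_of_ne_zero ha') h6) (not_le.2 (hlt a' Q₀ haK' h5))
      · exact (Nat.prime_dvd_prime_iff_eq h4 h4').1 h6
    rw [heq]
    exact Ideal.absNorm_mem Q.asIdeal)
  have h1 : (S.card : ℝ) ≤ Module.finrank ℚ k * (S.image x).card := by exact_mod_cast hfib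
  refine h1.trans (mul_le_mul_of_nonneg_left ?_ (Nat.cast_nonneg _))
  rwa [hcard, ← Finset.prod_pow_eq_pow_sum] at hT

end

end Pool.Agent.ML
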